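import Mathlib

set_option autoImplicit false

/-!
# Windows of three consecutive terms with small least common multiple
-/

namespace Pool.Agent.V11272.LW

open Finset

/-- the least common multiple of the `i`-th window -/
def W (a : ℕ → ℕ) (i : ℕ) : ℕ := Nat.lcm (Nat.lcm (a (i + 1)) (a (i + 2))) (a (i + 3))

theorem lcm_ge {a b c : ℕ} (ha : 0 < a) (hab : a < b) (hbc : b < c) :
    a ^ 3 ≤ Nat.lcm (Nat.lcm a b) c * (c - a) ^ 3 := by
  have h1 : Nat.gcd a b ≤ b - a := by
    apply Nat.le_of_dvd (by omega)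
    exact Nat.dvd_sub (Nat.gcd_dvd_right a b) (Nat.gcd_dvd_left a b)
  have h2 : Nat.gcd c a ≤ c - a := by
    apply Nat.le_of_dvd (by omega)
    exact Nat.dvd_sub (Nat.gcd_dvd_left c a) (Nat.gcd_dvd_right c a)
  have h3 : Nat.gcd c b ≤ c - b := by
    apply Nat.le_of_dvd (by omega)
    exact Nat.dvd_sub (Nat.gcd_dvd_left c b) (Nat.gcd_dvd_right c b)
  have h4 : Nat.gcd (Nat.lcm a b) c ≤ (c - a) * (c - b) := by
    have e1 : Nat.gcd (Nat.lcm a b) c ∣ Nat.gcd c (a * b) :=
      Nat.dvd_gcd (Nat.gcd_dvd_right _ _)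
        ((Nat.gcd_dvd_left _ _).trans (Nat.lcm_dvd_mul a b))
    have e2 : Nat.gcd c (a * b) ∣ Nat.gcd c a * Nat.gcd c b := Nat.gcd_mul_right_dvd_mul_gcd c a b
    have e3 : 0 < Nat.gcd c a * Nat.gcd c b :=
      Nat.mul_pos (Nat.gcd_pos_of_pos_right _ ha) (Nat.gcd_pos_of_pos_right _ (by omega))
    exact (Nat.le_of_dvd e3 (e1.trans e2)).trans (Nat.mul_le_mul h2 h3)
  have h5 : Nat.gcd a b * Nat.lcm a b = a * b := Nat.gcd_mul_lcm a b
  have h6 : Nat.gcd (Nat.lcm a b) c * Nat.lcm (Nat.lcm a b) c = Nat.lcm a b * c := Nat.gcd_mul_lcm _ _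
  set m := Nat.lcm a b with hm
  set L := Nat.lcm m c with hL
  have h7 : a * b * c ≤ (b - a) * ((c - a) * (c - b)) * L := by
    calc a * b * c = Nat.gcd a b * m * c := by rw [h5]
      _ = Nat.gcd a b * (m * c) := by ring
      _ = Nat.gcd a b * (Nat.gcd m c * L) := by rw [h6]
      _ = Nat.gcd a b * Nat.gcd m c * L := by ring
      _ ≤ (b - a) * ((c - a) * (c - b)) * L :=
          Nat.mul_le_mul_right _ (Nat.mul_le_mul h1 h4)
  have h8 : (b - a) * ((c - a) * (c - b)) ≤ (c - a) ^ 3 := by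
    have e1 : b - a ≤ c - a := by omega
    have e2 : c - b ≤ c - a := by omega
    calc (b - a) * ((c - a) * (c - b)) ≤ (c - a) * ((c - a) * (c - a)) :=
          Nat.mul_le_mul e1 (Nat.mul_le_mul_left _ e2)
      _ = (c - a) ^ 3 := by ring
  calc a ^ 3 = a * a * a := by ring
    _ ≤ a * b * c := Nat.mul_le_mul (Nat.mul_le_mul_left _ hab.le) (by omega)
    _ ≤ (b - a) * ((c - a) * (c - b)) * L := h7
    _ ≤ (c - a) ^ 3 * L := Nat.mul_le_mul_right _ h8
    _ = L * (c - a) ^ 3 := by ring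

/-- the weight of a window -/
theorem weight_le {a b c : ℕ} (ha : 0 < a) (hab : a < b) (hbc : b < c) :
    ((Nat.lcm (Nat.lcm a b) c : ℕ) : ℝ) ^ (-(1 / 3) : ℝ) ≤ 2 * (Real.log c - Real.log a) := by
  set L := Nat.lcm (Nat.lcm a b) c with hL
  have hLpos : 0 < L := Nat.lcm_pos (Nat.lcm_pos ha (by omega)) (by omega)
  have hLr : (1 : ℝ) ≤ L := by exact_mod_cast hLpos
  have har : (0 : ℝ) < a := by exact_mod_cast ha
  have hcr : (0 : ℝ) < c := by exact_mod_cast (by omega : 0 < c)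
  have hac : (a : ℝ) < c := by exact_mod_cast (by omega : a < c)
  -- 1 - a/c ≤ log (c/a)
  have h1 : 1 - (a : ℝ) / c ≤ Real.log c - Real.log a := by
    have h2 := Real.log_le_sub_one_of_pos (div_pos har hcr)
    rw [Real.log_div har.ne' hcr.ne'] at h2
    linarith
  have h3 : ((L : ℕ) : ℝ) ^ (-(1 / 3) : ℝ) ≤ 2 * (1 - (a : ℝ) / c) := by
    have hw1 : ((L : ℕ) : ℝ) ^ (-(1 / 3) : ℝ) ≤ 1 :=
      Real.rpow_le_one_of_one_le_of_nonpos hLr (by norm_num)
    rcases le_total (c : ℝ) (2 * a) with h4 | h4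
    · -- w ≤ (c - a) / a
      have h5 : (a : ℝ) ^ 3 ≤ L * ((c : ℝ) - a) ^ 3 := by
        have h6 := lcm_ge ha hab hbc
        have h7 : ((a ^ 3 : ℕ) : ℝ) ≤ ((L * (c - a) ^ 3 : ℕ) : ℝ) := by exact_mod_cast h6
        push_cast [Nat.cast_sub (by omega : a ≤ c)] at h7
        exact h7
      set w := ((L : ℕ) : ℝ) ^ (-(1 / 3) : ℝ) with hw
      have hw0 : 0 < w := Real.rpow_pos_of_pos (by linarith) _
      have hw3 : w ^ 3 * L = 1 := by
        rw [hw, ← Real.rpow_natCast, ← Real.rpow_mul (by linarith)]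
        have : (-(1 / 3) : ℝ) * ((3 : ℕ) : ℝ) = -1 := by norm_num
        rw [this, Real.rpow_neg_one]
        field_simp
      have h8 : w * a ≤ c - a := by
        have h9 : (w * a) ^ 3 ≤ ((c : ℝ) - a) ^ 3 := by
          calc (w * a) ^ 3 = w ^ 3 * (a : ℝ) ^ 3 := by ring
            _ ≤ w ^ 3 * (L * ((c : ℝ) - a) ^ 3) := mul_le_mul_of_nonneg_left h5 (by positivity)
            _ = (w ^ 3 * L) * ((c : ℝ) - a) ^ 3 := by ring
            _ = ((c : ℝ) - a) ^ 3 := by rw [hw3, one_mul]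
        exact le_of_pow_le_pow_left₀ (by norm_num) (by linarith) h9
      have h10 : 2 * (1 - (a : ℝ) / c) = 2 * (c - a) / c := by field_simp
      rw [h10, le_div_iff₀ hcr]
      nlinarith
    · have h5 : (a : ℝ) / c ≤ 1 / 2 := by
        rw [div_le_div_iff₀ hcr (by norm_num)]
        linarith
      linarith
  linarith

/-- the total weight of the windows with least common multiple below `X` -/
theorem total_weight {a : ℕ → ℕ} (hm : StrictMono a) (hpos : ∀ n, 0 < a n) {X : ℝ} (hX : 1 ≤ X)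
    (N : ℕ) :
    ∑ i ∈ (range N).filter (fun i => (W a i : ℝ) < X), (W a i : ℝ) ^ (-(1 / 3) : ℝ) ≤
      4 * Real.log X := by
  set b : ℕ → ℝ := fun j => Real.log (min (a j : ℝ) X) with hb
  have hb0 : ∀ j, 0 ≤ b j := by
    intro j
    apply Real.log_nonneg
    apply le_min _ hX
    exact_mod_cast hpos j
  have hb1 : ∀ j, b j ≤ Real.log X := by
    intro j
    apply Real.log_le_log _ (min_le_right _ _)
    apply lt_min _ (by linarith)
    exact_mod_cast hpos j
  have hbm : ∀ i j, i ≤ j → b i ≤ b j := by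
    intro i j hij
    apply Real.log_le_log
    · apply lt_min _ (by linarith)
      exact_mod_cast hpos i
    · apply min_le_min_right
      exact_mod_cast hm.monotone hij
  have h1 : ∑ i ∈ (range N).filter (fun i => (W a i : ℝ) < X), (W a i : ℝ) ^ (-(1 / 3) : ℝ) ≤
      ∑ i ∈ (range N).filter (fun i => (W a i : ℝ) < X), 2 * (b (i + 3) - b (i + 1)) := by
    apply Finset.sum_le_sum
    intro i hi
    rw [Finset.mem_filter] at hi
    have h2 := weight_le (hpos (i + 1)) (hm (by omega : i + 1 < i + 2)) (hm (by omega : i + 2 < i + 3))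
    have h3 : (a (i + 3) : ℝ) ≤ X := by
      have h4 : a (i + 3) ≤ W a i := by
        apply Nat.le_of_dvd
        · exact Nat.lcm_pos (Nat.lcm_pos (hpos _) (hpos _)) (hpos _)
        · exact Nat.dvd_lcm_right _ _
      have h5 : (a (i + 3) : ℝ) ≤ W a i := by exact_mod_cast h4
      linarith [hi.2]
    have h6 : (a (i + 1) : ℝ) ≤ X := by
      have : (a (i + 1) : ℝ) ≤ a (i + 3) := by exact_mod_cast (hm (by omega : i + 1 < i + 3)).le
      linarith
    rw [hb]
    simp only
    rw [min_eq_left h3, min_eq_left h6]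
    exact h2
  refine h1.trans ?_
  have h2 : ∑ i ∈ (range N).filter (fun i => (W a i : ℝ) < X), 2 * (b (i + 3) - b (i + 1)) ≤
      ∑ i ∈ range N, 2 * (b (i + 3) - b (i + 1)) := by
    apply Finset.sum_le_sum_of_subset_of_nonneg (Finset.filter_subset _ _)
    intro i _ _
    have := hbm (i + 1) (i + 3) (by omega)
    linarith
  refine h2.trans ?_
  rw [← Finset.mul_sum]
  have h3 : ∀ M : ℕ, ∑ i ∈ range M, (b (i + 3) - b (i + 1)) = b (M + 2) + b (M + 1) - b 2 - b 1 := by
    intro M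
    induction M with
    | zero => simp
    | succ M ih =>
      rw [Finset.sum_range_succ, ih]
      have : M + 1 + 2 = M + 3 := by ring
      rw [this]
      have : M + 1 + 1 = M + 2 := by ring
      rw [this]
      ring
  rw [h3]
  have := hb0 1
  have := hb0 2
  have := hb1 (N + 2)
  have := hb1 (N + 1)
  linarith

/-- a geometric sum -/
theorem geo {L : ℕ} (hL : 0 < L) (K : ℕ) :
    ∑ k ∈ (range K).filter (fun k => L < 8 ^ k), (1 / 2 : ℝ) ^ k ≤ 2 * (L : ℝ) ^ (-(1 / 3) : ℝ) := by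
  classical
  have hLr : (0 : ℝ) < L := by exact_mod_cast hL
  by_cases hne : ∃ k, k < K ∧ L < 8 ^ k
  · -- minimal such k
    obtain ⟨k1, -, hk1⟩ := hne
    have hex : ∃ k, L < 8 ^ k := ⟨k1, hk1⟩
    set k0 := Nat.find hex with hk0
    have hk0s : L < 8 ^ k0 := Nat.find_spec hex
    have h1 : ∑ k ∈ (range K).filter (fun k => L < 8 ^ k), (1 / 2 : ℝ) ^ k ≤
        ∑ j ∈ range K, (1 / 2 : ℝ) ^ (k0 + j) := by
      have h2 : (range K).filter (fun k => L < 8 ^ k) ⊆ (range K).image (fun j => k0 + j) := by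
        intro k hk
        rw [Finset.mem_filter, Finset.mem_range] at hk
        rw [Finset.mem_image]
        have h3 : k0 ≤ k := Nat.find_min' hex hk.2
        exact ⟨k - k0, Finset.mem_range.2 (by omega), by omega⟩
      refine (Finset.sum_le_sum_of_subset_of_nonneg h2 (fun k _ _ => by positivity)).trans ?_
      rw [Finset.sum_image (fun i _ j _ h => by simpa using h)]
    refine h1.trans ?_
    have h2 : ∑ j ∈ range K, (1 / 2 : ℝ) ^ (k0 + j) ≤ 2 * (1 / 2 : ℝ) ^ k0 := by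
      have h3 : ∑ j ∈ range K, (1 / 2 : ℝ) ^ (k0 + j) = (1 / 2 : ℝ) ^ k0 * ∑ j ∈ range K, (1 / 2 : ℝ) ^ j := by
        rw [Finset.mul_sum]
        apply Finset.sum_congr rfl
        intro j _
        rw [pow_add]
      rw [h3]
      have h4 : ∑ j ∈ range K, (1 / 2 : ℝ) ^ j ≤ 2 := by
        rw [geom_sum_eq (by norm_num)]
        have : (0 : ℝ) < (1 / 2) ^ K := by positivity
        have h5 : ((1 / 2 : ℝ) ^ K - 1) / (1 / 2 - 1) = 2 * (1 - (1 / 2) ^ K) := by ring
        rw [h5]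
        linarith
      have : (0 : ℝ) < (1 / 2) ^ k0 := by positivity
      nlinarith
    refine h2.trans ?_
    apply mul_le_mul_of_nonneg_left _ (by norm_num)
    -- (1/2)^k0 ≤ L^(-1/3)
    have h3 : (1 / 2 : ℝ) ^ k0 = ((8 : ℝ) ^ k0) ^ (-(1 / 3) : ℝ) := by
      rw [← Real.rpow_natCast 8 k0, ← Real.rpow_mul (by norm_num)]
      rw [show (8 : ℝ) = 2 ^ (3 : ℝ) by norm_num, ← Real.rpow_mul (by norm_num)]
      rw [show (3 : ℝ) * ((k0 : ℝ) * -(1 / 3)) = -(k0 : ℝ) by ring, Real.rpow_neg (by norm_num),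
        Real.rpow_natCast]
      rw [one_div, inv_pow]
    rw [h3]
    apply Real.rpow_le_rpow_of_nonpos hLr _ (by norm_num)
    exact_mod_cast hk0s.le
  · have : (range K).filter (fun k => L < 8 ^ k) = ∅ := by
      rw [Finset.filter_eq_empty_iff]
      intro k hk h
      exact hne ⟨k, Finset.mem_range.1 hk, h⟩
    rw [this, Finset.sum_empty]
    positivity

/-- there is no sequence with many windows at all scales -/
theorem main : ¬ (∃ a : ℕ → ℕ, StrictMono a ∧ (∀ n, 0 < a n) ∧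
      ∃ c : ℝ, 0 < c ∧ ∃ X : ℝ, ∀ x : ℝ, X ≤ x →
        c * x ^ ((1 : ℝ) / 3) * Real.log x <
          (({i : ℕ | ((W a i : ℕ) : ℝ) < x}.ncard : ℕ) : ℝ)) := by
  classical
  rintro ⟨a, hm, hpos, c, hc, X, hX⟩
  -- choose the range
  obtain ⟨k0, hk0⟩ := exists_nat_ge (max X 1)
  have hk0' : ∀ k, k0 ≤ k → X ≤ (8 : ℝ) ^ k := by
    intro k hk
    have h1 : (k : ℝ) ≤ (8 : ℝ) ^ k := by
      have : k < 8 ^ k := Nat.lt_pow_self (by norm_num)
      exact_mod_cast this.le
    have h2 : (k0 : ℝ) ≤ k := by exact_mod_cast hk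
    have h3 := le_max_left X 1
    linarith
  have hfin : ∀ i, i < W a i := by
    intro i
    have h1 : i + 3 ≤ a (i + 3) := hm.id_le _
    have h4 : a (i + 3) ≤ W a i := by
      apply Nat.le_of_dvd
      · exact Nat.lcm_pos (Nat.lcm_pos (hpos _) (hpos _)) (hpos _)
      · exact Nat.dvd_lcm_right _ _
    omega
  have hWpos : ∀ i, 0 < W a i := fun i => by have := hfin i; omega
  -- main inequality for `K`
  have key : ∀ K : ℕ, ∑ k ∈ Ico k0 K, c * ((k : ℝ) * Real.log 8) ≤ 8 * (K * Real.log 8) := by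
    intro K
    have hX1 : (1 : ℝ) ≤ (8 : ℝ) ^ K := one_le_pow₀ (by norm_num)
    have h1 := total_weight hm hpos hX1 (8 ^ K)
    rw [Real.log_pow] at h1
    have h2 : ∑ k ∈ range K, (1 / 2 : ℝ) ^ k *
        (((range (8 ^ K)).filter (fun i => W a i < 8 ^ k)).card : ℝ) ≤
        2 * ∑ i ∈ (range (8 ^ K)).filter (fun i => (W a i : ℝ) < 8 ^ K), (W a i : ℝ) ^ (-(1 / 3) : ℝ) := by
      have e1 : ∀ k ∈ range K, (1 / 2 : ℝ) ^ k *
          (((range (8 ^ K)).filter (fun i => W a i < 8 ^ k)).card : ℝ) =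
          ∑ i ∈ range (8 ^ K), if W a i < 8 ^ k then (1 / 2 : ℝ) ^ k else 0 := by
        intro k _
        rw [← Finset.sum_filter, Finset.sum_const, nsmul_eq_mul, mul_comm]
      rw [Finset.sum_congr rfl e1, Finset.sum_comm, Finset.mul_sum, Finset.sum_filter]
      apply Finset.sum_le_sum
      intro i _
      split_ifs with h3
      · rw [← Finset.sum_filter]
        exact geo (hWpos i) K
      · apply le_of_eq
        apply Finset.sum_eq_zero
        intro k hk
        rw [if_neg]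
        intro h4
        apply h3
        have h5 : 8 ^ k ≤ 8 ^ K := Nat.pow_le_pow_right (by norm_num) (Finset.mem_range.1 hk).le
        have h6 : W a i < 8 ^ K := by omega
        exact_mod_cast h6
    have h3 : ∑ k ∈ Ico k0 K, c * ((k : ℝ) * Real.log 8) ≤
        ∑ k ∈ range K, (1 / 2 : ℝ) ^ k *
        (((range (8 ^ K)).filter (fun i => W a i < 8 ^ k)).card : ℝ) := by
      have e0 : ∑ k ∈ Ico k0 K, (1 / 2 : ℝ) ^ k *
          (((range (8 ^ K)).filter (fun i => W a i < 8 ^ k)).card : ℝ) ≤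
          ∑ k ∈ range K, (1 / 2 : ℝ) ^ k *
          (((range (8 ^ K)).filter (fun i => W a i < 8 ^ k)).card : ℝ) := by
        apply Finset.sum_le_sum_of_subset_of_nonneg
        · intro k hk
          rw [Finset.mem_Ico] at hk
          exact Finset.mem_range.2 hk.2
        · intro k _ _; positivity
      refine le_trans (Finset.sum_le_sum fun k hk => ?_) e0
      rw [Finset.mem_Ico] at hk
      have e1 := hX ((8 : ℝ) ^ k) (hk0' k hk.1)
      have e2 : {i : ℕ | ((W a i : ℕ) : ℝ) < (8 : ℝ) ^ k} =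
          (((range (8 ^ K)).filter (fun i => W a i < 8 ^ k) : Finset ℕ) : Set ℕ) := by
        ext i
        simp only [Set.mem_ofPred_eq, Finset.coe_filter, Finset.mem_range]
        constructor
        · intro h
          have h' : W a i < 8 ^ k := by exact_mod_cast h
          have h5 : 8 ^ k ≤ 8 ^ K := Nat.pow_le_pow_right (by norm_num) hk.2.le
          have := hfin i
          exact ⟨by omega, h'⟩
        · rintro ⟨-, h⟩
          exact_mod_cast h
      rw [e2, Set.ncard_coe_finset, Real.log_pow] at e1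
      have e3 : ((8 : ℝ) ^ k) ^ ((1 : ℝ) / 3) = 2 ^ k := by
        rw [← Real.rpow_natCast 8 k, ← Real.rpow_mul (by norm_num)]
        rw [show (8 : ℝ) = 2 ^ (3 : ℝ) by norm_num, ← Real.rpow_mul (by norm_num)]
        rw [show (3 : ℝ) * ((k : ℝ) * (1 / 3)) = (k : ℝ) by ring, Real.rpow_natCast]
      rw [e3] at e1
      have e4 : (1 / 2 : ℝ) ^ k * 2 ^ k = 1 := by
        rw [← mul_pow]; norm_num
      have e5 : (0 : ℝ) < (1 / 2) ^ k := by positivity
      calc c * ((k : ℝ) * Real.log 8) = (1 / 2 : ℝ) ^ k * (c * 2 ^ k * ((k : ℝ) * Real.log 8)) := by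
            calc c * ((k : ℝ) * Real.log 8) = 1 * (c * ((k : ℝ) * Real.log 8)) := by ring
              _ = ((1 / 2 : ℝ) ^ k * 2 ^ k) * (c * ((k : ℝ) * Real.log 8)) := by rw [e4]
              _ = _ := by ring
        _ ≤ _ := mul_le_mul_of_nonneg_left e1.le e5.le
    linarith
  -- contradiction
  have hlog : 0 < Real.log 8 := Real.log_pos (by norm_num)
  have key2 : ∀ K : ℕ, ∑ k ∈ Ico k0 K, c * (k : ℝ) ≤ 8 * K := by
    intro K
    have h1 := key K
    have h2 : ∑ k ∈ Ico k0 K, c * ((k : ℝ) * Real.log 8) = (∑ k ∈ Ico k0 K, c * (k : ℝ)) * Real.log 8 := by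
      rw [Finset.sum_mul]
      apply Finset.sum_congr rfl
      intro k _
      ring
    rw [h2] at h1
    have h3 : (∑ k ∈ Ico k0 K, c * (k : ℝ)) * Real.log 8 ≤ (8 * K) * Real.log 8 := by linarith
    exact le_of_mul_le_mul_right h3 hlog
  obtain ⟨M, hM⟩ := exists_nat_gt (32 / c + 2 * k0 + 4)
  have h1 := key2 (2 * M)
  have hk0M : k0 ≤ M := by
    have : (k0 : ℝ) ≤ M := by
      have h2 : 0 ≤ 32 / c := by positivity
      have h3 : (0 : ℝ) ≤ k0 := Nat.cast_nonneg _
      linarith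
    exact_mod_cast this
  have h2 : ∑ k ∈ Ico M (2 * M), c * (M : ℝ) ≤ ∑ k ∈ Ico k0 (2 * M), c * (k : ℝ) := by
    refine le_trans (Finset.sum_le_sum (g := fun k : ℕ => c * (k : ℝ)) fun k hk => ?_) ?_
    · rw [Finset.mem_Ico] at hk
      apply mul_le_mul_of_nonneg_left _ hc.le
      exact_mod_cast hk.1
    · apply Finset.sum_le_sum_of_subset_of_nonneg
      · apply Finset.Ico_subset_Ico_left hk0M
      · intro k _ _; positivity
  rw [Finset.sum_const, Nat.card_Ico, nsmul_eq_mul] at h2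
  have h3 : ((2 * M - M : ℕ) : ℝ) = M := by
    congr 1
    omega
  rw [h3] at h2
  push_cast at h1
  have hM0 : (0 : ℝ) < M := by
    have h2 : 0 ≤ 32 / c := by positivity
    have h3 : (0 : ℝ) ≤ k0 := Nat.cast_nonneg _
    linarith
  have h4 : 32 / c < M := by
    have h3 : (0 : ℝ) ≤ k0 := Nat.cast_nonneg _
    linarith
  rw [div_lt_iff₀ hc] at h4
  nlinarith

end Pool.Agent.V11272.LW
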